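import Mathlib

/-!
MP_cd51d2_nt: for every even `a ≥ 2` there are infinitely many three-term arithmetic progressions
of pseudoprimes to base `a`.

Key identity: `Φ₁₅(x) + Φ₃₀(x) = 2 Φ₂₄(x)`.
-/

namespace Pool.Agent.Results.MP_cd51d2_nt.EvenBases

/-- `n` is a pseudoprime to base `a`: a composite integer `n > 1` with `a^(n-1) ≡ 1 (mod n)`. -/
def IsPseudoprime (a n : ℕ) : Prop := 1 < n ∧ ¬ n.Prime ∧ a ^ (n - 1) ≡ 1 [MOD n]

/-- the cyclotomic polynomials of index 15, 24, 30 -/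
def f15 (x : ℤ) : ℤ := x ^ 8 - x ^ 7 + x ^ 5 - x ^ 4 + x ^ 3 - x + 1
def f24 (x : ℤ) : ℤ := x ^ 8 - x ^ 4 + 1
def f30 (x : ℤ) : ℤ := x ^ 8 + x ^ 7 - x ^ 5 - x ^ 4 - x ^ 3 + x + 1

lemma progression (x : ℤ) : f24 x - f15 x = x * (x ^ 2 - 1) * (x ^ 4 - 1) ∧
    f30 x - f24 x = x * (x ^ 2 - 1) * (x ^ 4 - 1) := by
  unfold f15 f24 f30
  constructor <;> ring

lemma dvd15 (x : ℤ) : f15 x ∣ x ^ 15 - 1 :=
  ⟨x ^ 7 + x ^ 6 + x ^ 5 - x ^ 2 - x - 1, by unfold f15; ring⟩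

lemma dvd24 (x : ℤ) : f24 x ∣ x ^ 24 - 1 :=
  ⟨x ^ 16 + x ^ 12 - x ^ 4 - 1, by unfold f24; ring⟩

lemma dvd30 (x : ℤ) : f30 x ∣ x ^ 30 - 1 :=
  ⟨x^22 - x^21 + x^20 + x^17 - x^16 + x^15 - x^7 + x^6 - x^5 - x^2 + x - 1, by unfold f30; ring⟩

lemma sub15 (x : ℤ) : x * (x - 1) ∣ f15 x - 1 :=
  ⟨x ^ 6 + x ^ 3 + x + 1, by unfold f15; ring⟩

lemma sub24 (x : ℤ) : x * (x - 1) ∣ f24 x - 1 :=
  ⟨x ^ 3 * (x + 1) * (x ^ 2 + 1), by unfold f24; ring⟩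

lemma sub30 (x : ℤ) : x * (x - 1) ∣ f30 x - 1 :=
  ⟨x ^ 6 + 2 * x ^ 5 + 2 * x ^ 4 + x ^ 3 - x - 1, by unfold f30; ring⟩

lemma fac15 (y : ℤ) : f15 y ∣ f15 (y ^ 7) :=
  ⟨y^48 + y^47 + y^46 - y^43 - y^42 - 2*y^41 - y^40 - y^39 + y^36 + y^35 + y^34 + y^33 + y^32
    + y^31 - y^28 - y^26 - y^24 - y^22 - y^20 + y^17 + y^16 + y^15 + y^14 + y^13 + y^12 - y^9
    - y^8 - 2*y^7 - y^6 - y^5 + y^2 + y + 1, by unfold f15; ring⟩

lemma fac24 (y : ℤ) : f24 y ∣ f24 (y ^ 7) :=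
  ⟨y^48 + y^44 - y^36 - y^32 + y^24 - y^16 - y^12 + y^4 + 1, by unfold f24; ring⟩

lemma fac30 (y : ℤ) : f30 y ∣ f30 (y ^ 7) :=
  ⟨y^48 - y^47 + y^46 + y^43 - y^42 + 2*y^41 - y^40 + y^39 + y^36 - y^35 + y^34 - y^33 + y^32
    - y^31 - y^28 - y^26 - y^24 - y^22 - y^20 - y^17 + y^16 - y^15 + y^14 - y^13 + y^12 + y^9
    - y^8 + 2*y^7 - y^6 + y^5 + y^2 - y + 1, by unfold f30; ring⟩

/-- size bounds -/
lemma bounds (z : ℤ) (hz : 2 ≤ z) :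
    (z ^ 8 ≤ 2 * f15 z ∧ f15 z ≤ 2 * z ^ 8) ∧ (z ^ 8 ≤ 2 * f24 z ∧ f24 z ≤ 2 * z ^ 8) ∧
    (z ^ 8 ≤ 2 * f30 z ∧ f30 z ≤ 2 * z ^ 8) := by
  obtain ⟨t, rfl⟩ : ∃ t : ℕ, z = (t : ℤ) + 2 := ⟨(z - 2).toNat, by omega⟩
  unfold f15 f24 f30
  refine ⟨⟨?_, ?_⟩, ⟨?_, ?_⟩, ⟨?_, ?_⟩⟩ <;>
  · rw [← sub_nonneg]
    ring_nf
    positivity

/-- a divisor argument for compositeness -/
lemma composite {f : ℤ → ℤ} (hb : ∀ z : ℤ, 2 ≤ z → z ^ 8 ≤ 2 * f z ∧ f z ≤ 2 * z ^ 8)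
    (hf : ∀ y, f y ∣ f (y ^ 7)) {y : ℤ} (hy : 2 ≤ y) {n : ℕ} (hn : (n : ℤ) = f (y ^ 7)) :
    1 < n ∧ ¬ n.Prime := by
  have h1 := hb y hy
  have hy7 : (2 : ℤ) ≤ y ^ 7 := by
    calc (2 : ℤ) ≤ 2 ^ 7 := by norm_num
      _ ≤ y ^ 7 := by gcongr
  have h2 := hb (y ^ 7) hy7
  have hy8 : (256 : ℤ) ≤ y ^ 8 := by
    calc (256 : ℤ) = 2 ^ 8 := by norm_num
      _ ≤ y ^ 8 := by gcongr
  have hy48 : (256 : ℤ) ≤ y ^ 48 := by
    calc (256 : ℤ) ≤ 2 ^ 48 := by norm_num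
      _ ≤ y ^ 48 := by gcongr
  have h56 : (y ^ 7) ^ 8 = y ^ 48 * y ^ 8 := by ring
  have hbig : 256 * y ^ 8 ≤ (y ^ 7) ^ 8 := by
    rw [h56]
    nlinarith
  have hA : 1 < f y := by linarith [h1.1]
  have hlt : f y < f (y ^ 7) := by linarith [h1.2, h2.1]
  obtain ⟨A, hAe⟩ : ∃ A : ℕ, (A : ℤ) = f y := ⟨(f y).toNat, by omega⟩
  have hd : (A : ℤ) ∣ (n : ℤ) := by
    rw [hAe, hn]
    exact hf y
  have hd' : A ∣ n := by exact_mod_cast hd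
  have hA1 : 1 < A := by
    have : (1 : ℤ) < A := by rw [hAe]; exact hA
    exact_mod_cast this
  have hAn : A < n := by
    have : (A : ℤ) < n := by rw [hAe, hn]; exact hlt
    exact_mod_cast this
  refine ⟨by omega, ?_⟩
  intro hp
  rcases (Nat.dvd_prime hp).1 hd' with h | h
  · omega
  · omega

/-- the Fermat congruence -/
lemma fermat (a K N n : ℕ) (hn1 : 1 < n) (h1 : ((N * K : ℕ) : ℤ) ∣ (n : ℤ) - 1)
    (h2 : (n : ℤ) ∣ ((a : ℤ) ^ K) ^ N - 1) : a ^ (n - 1) ≡ 1 [MOD n] := by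
  have h3 : (N * K) ∣ n - 1 := by
    have : ((n - 1 : ℕ) : ℤ) = (n : ℤ) - 1 := by
      rw [Nat.cast_sub hn1.le]; simp
    rw [← this] at h1
    exact_mod_cast h1
  obtain ⟨q, hq⟩ := h3
  apply Nat.ModEq.symm
  rw [Nat.modEq_iff_dvd]
  push_cast
  have h4 : (a : ℤ) ^ (n - 1) - 1 = (((a : ℤ) ^ K) ^ N) ^ q - 1 ^ q := by
    rw [hq, one_pow, ← pow_mul, ← pow_mul]
    congr 2
    ring
  rw [h4]
  exact h2.trans (sub_dvd_pow_sub_pow _ _ q)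

lemma idem315 : ∀ e : ZMod 315, e ^ 12 * e ^ 12 = e ^ 12 := by decide +kernel

lemma dvd315 (a m : ℕ) (hm : m ≠ 0) :
    (315 : ℤ) ∣ ((a : ℤ) ^ (12 * m)) * ((a : ℤ) ^ (12 * m) - 1) := by
  have h : ((((a : ℤ) ^ (12 * m)) * ((a : ℤ) ^ (12 * m) - 1) : ℤ) : ZMod 315) = 0 := by
    push_cast
    rw [pow_mul]
    have he : IsIdempotentElem ((a : ZMod 315) ^ 12) := idem315 _
    obtain ⟨j, rfl⟩ := Nat.exists_eq_succ_of_ne_zero hm
    rw [Nat.succ_eq_add_one, he.pow_succ_eq j]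
    rw [mul_sub, he.eq]
    simp
  exact (ZMod.intCast_zmod_eq_zero_iff_dvd _ 315).1 h

/-- `120 K` divides `x (x - 1)` for `x = a ^ K`, `K = 84 * 2 ^ i`, `a` even. -/
lemma main_dvd (a i : ℕ) (ha : Even a) :
    ((120 * (84 * 2 ^ i) : ℕ) : ℤ) ∣
      ((a : ℤ) ^ (84 * 2 ^ i)) * ((a : ℤ) ^ (84 * 2 ^ i) - 1) := by
  have h1 : (315 : ℤ) ∣ ((a : ℤ) ^ (84 * 2 ^ i)) * ((a : ℤ) ^ (84 * 2 ^ i) - 1) := by
    have := dvd315 a (7 * 2 ^ i) (by positivity)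
    rwa [← mul_assoc] at this
  have h2 : (2 : ℤ) ^ (i + 5) ∣ ((a : ℤ) ^ (84 * 2 ^ i)) * ((a : ℤ) ^ (84 * 2 ^ i) - 1) := by
    apply Dvd.dvd.mul_right
    obtain ⟨b, hb⟩ := ha.two_dvd
    have hle : i + 5 ≤ 84 * 2 ^ i := by
      have := Nat.lt_two_pow_self (n := i)
      omega
    calc (2 : ℤ) ^ (i + 5) ∣ 2 ^ (84 * 2 ^ i) := pow_dvd_pow _ hle
      _ ∣ (a : ℤ) ^ (84 * 2 ^ i) := by
        apply pow_dvd_pow_of_dvd
        exact ⟨b, by rw [hb]; push_cast; ring⟩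
  have h3 : IsCoprime ((2 : ℤ) ^ (i + 5)) 315 := by
    apply IsCoprime.pow_left
    exact ⟨-157, 1, by norm_num⟩
  have h4 := h3.mul_dvd h2 h1
  have h5 : ((120 * (84 * 2 ^ i) : ℕ) : ℤ) = 2 ^ (i + 5) * 315 := by
    push_cast
    ring
  rw [h5]
  exact h4

/-- the progression with parameter `i` -/
lemma exists_ap (a : ℕ) (ha2 : 2 ≤ a) (ha : Even a) (i : ℕ) :
    ∃ n d : ℕ, i < n ∧ 0 < d ∧ IsPseudoprime a n ∧ IsPseudoprime a (n + d) ∧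
      IsPseudoprime a (n + 2 * d) := by
  set K : ℕ := 84 * 2 ^ i with hK
  set y : ℤ := (a : ℤ) ^ (12 * 2 ^ i) with hy
  set x : ℤ := (a : ℤ) ^ K with hx
  have hxy : x = y ^ 7 := by
    rw [hx, hy, hK, ← pow_mul]
    congr 1
    ring
  have ha2' : (2 : ℤ) ≤ a := by exact_mod_cast ha2
  have hy2 : 2 ≤ y := by
    rw [hy]
    calc (2 : ℤ) ≤ a := ha2'
      _ = (a : ℤ) ^ 1 := (pow_one _).symm
      _ ≤ (a : ℤ) ^ (12 * 2 ^ i) := by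
        apply pow_le_pow_right₀ (by linarith)
        have : 0 < 2 ^ i := by positivity
        omega
  have hxi : (i : ℤ) + 2 ≤ x := by
    have h1 : i + 2 ≤ K := by
      have := Nat.lt_two_pow_self (n := i)
      omega
    have h2 : K < 2 ^ K := Nat.lt_two_pow_self
    have h3 : (2 : ℤ) ^ K ≤ x := by
      rw [hx]; gcongr
    have h4 : ((i + 2 : ℕ) : ℤ) ≤ ((2 ^ K : ℕ) : ℤ) := by exact_mod_cast (h1.trans h2.le)
    push_cast at h4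
    linarith
  have hx2 : 2 ≤ x := by
    have : (0 : ℤ) ≤ i := by positivity
    linarith
  have hb := bounds x hx2
  have hx8 : x ≤ x ^ 8 := by
    calc x = x ^ 1 := (pow_one _).symm
      _ ≤ x ^ 8 := pow_le_pow_right₀ (by linarith) (by norm_num)
  have hx8' : 2 * x ≤ x ^ 8 := by
    have h7 : (2 : ℤ) ≤ x ^ 7 := by
      calc (2 : ℤ) ≤ 2 ^ 7 := by norm_num
        _ ≤ x ^ 7 := by gcongr
    have : x ^ 8 = x ^ 7 * x := by ring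
    rw [this]
    nlinarith
  have hpr := progression x
  have hdpos : 0 < x * (x ^ 2 - 1) * (x ^ 4 - 1) := by
    have h2 : 1 < x ^ 2 := by nlinarith
    have h4 : 1 < x ^ 4 := by
      have : x ^ 4 = x ^ 2 * x ^ 2 := by ring
      rw [this]; nlinarith
    have : 0 < x ^ 2 - 1 := by linarith
    have : 0 < x ^ 4 - 1 := by linarith
    positivity
  obtain ⟨d, hd⟩ : ∃ d : ℕ, (d : ℤ) = x * (x ^ 2 - 1) * (x ^ 4 - 1) :=
    ⟨(x * (x ^ 2 - 1) * (x ^ 4 - 1)).toNat, by omega⟩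
  obtain ⟨n, hn⟩ : ∃ n : ℕ, (n : ℤ) = f15 x := ⟨(f15 x).toNat, by omega⟩
  have hn2 : ((n + d : ℕ) : ℤ) = f24 x := by push_cast; linarith [hpr.1]
  have hn3 : ((n + 2 * d : ℕ) : ℤ) = f30 x := by push_cast; linarith [hpr.1, hpr.2]
  have key : ∀ N : ℕ, N ∣ 120 → ((N * K : ℕ) : ℤ) ∣ x * (x - 1) := by
    intro N hN
    have h := main_dvd a i ha
    have h' : ((N * K : ℕ) : ℤ) ∣ ((120 * (84 * 2 ^ i) : ℕ) : ℤ) := by
      have : N * K ∣ 120 * (84 * 2 ^ i) := Nat.mul_dvd_mul hN (dvd_refl _)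
      exact_mod_cast this
    exact h'.trans h
  have c1 := composite (f := f15) (fun z hz => (bounds z hz).1) fac15 hy2
    (n := n) (by rw [hn, hxy])
  have c2 := composite (f := f24) (fun z hz => (bounds z hz).2.1) fac24 hy2
    (n := n + d) (by rw [hn2, hxy])
  have c3 := composite (f := f30) (fun z hz => (bounds z hz).2.2) fac30 hy2
    (n := n + 2 * d) (by rw [hn3, hxy])
  refine ⟨n, d, ?_, ?_, ⟨c1.1, c1.2, ?_⟩, ⟨c2.1, c2.2, ?_⟩, ⟨c3.1, c3.2, ?_⟩⟩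
  · have : (i : ℤ) < n := by
      rw [hn]
      linarith [hb.1.1]
    exact_mod_cast this
  · have : (0 : ℤ) < d := by rw [hd]; exact hdpos
    exact_mod_cast this
  · apply fermat a K 15 n c1.1
    · rw [hn]
      exact (key 15 (by norm_num)).trans (sub15 x)
    · rw [hn]
      exact dvd15 x
  · apply fermat a K 24 (n + d) c2.1
    · rw [hn2]
      exact (key 24 (by norm_num)).trans (sub24 x)
    · rw [hn2]
      exact dvd24 x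
  · apply fermat a K 30 (n + 2 * d) c3.1
    · rw [hn3]
      exact (key 30 (by norm_num)).trans (sub30 x)
    · rw [hn3]
      exact dvd30 x

/-- **Q1 (TRUE).** For every even `a ≥ 2` there are infinitely many (sets of terms of)
arithmetic progressions of three pseudoprimes to base `a`. -/
theorem result : ∀ a : ℕ, 2 ≤ a → Even a →
    {t : Finset ℕ | ∃ n d : ℕ, 0 < d ∧ t = {n, n + d, n + 2 * d} ∧
      ∀ m ∈ t, IsPseudoprime a m}.Infinite := by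
  intro a ha2 ha hfin
  set F : Finset ℕ := hfin.toFinset.sup id with hF
  obtain ⟨n, d, hi, hd, h1, h2, h3⟩ := exists_ap a ha2 ha (F.sup id)
  have hmem : ({n, n + d, n + 2 * d} : Finset ℕ) ∈ hfin.toFinset := by
    rw [Set.Finite.mem_toFinset]
    refine ⟨n, d, hd, rfl, ?_⟩
    intro m hm
    simp only [Finset.mem_insert, Finset.mem_singleton] at hm
    rcases hm with rfl | rfl | rfl
    · exact h1
    · exact h2
    · exact h3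
  have hsub : ({n, n + d, n + 2 * d} : Finset ℕ) ≤ F := Finset.le_sup (f := id) hmem
  have hnF : n ∈ F := hsub (by simp)
  have : n ≤ F.sup id := Finset.le_sup (f := id) hnF
  omega

end Pool.Agent.Results.MP_cd51d2_nt.EvenBases
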